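import Pool.Agent.P.MP_4175a8_pr.IntLow

open MeasureTheory ProbabilityTheory Filter Topology

namespace Pool.Agent.Results.MP_4175a8_pr.IntegralTest

open Pool.Agent.RW

theorem result {Ω : Type*} [MeasurableSpace Ω] (P : Measure Ω) [IsProbabilityMeasure P]
    (w : ℤ → Ω → ℝ × ℝ) (hw : ∀ x, Measurable (w x)) (hind : iIndepFun w P)
    (hid : ∀ x, IdentDistrib (w x) (w 0) P P) (ε : ℝ) (hε : 0 < ε)
    (hell : ∀ᵐ ω ∂P, ε < (w 0 ω).1 ∧ ε < (w 0 ω).2 ∧ (w 0 ω).1 + (w 0 ω).2 ≤ 1)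
    (hmin : P {ω | (w 0 ω).2 / (w 0 ω).1 < 1} ≠ 0)
    (s : ℝ) (hs : 1 < s) (hms : ∫ ω, ((w 0 ω).2 / (w 0 ω).1) ^ s ∂P = 1)
    (vP : ℝ) (hvP : ∀ η : ℝ, 0 < η → ∀ᵐ ω ∂P, Tendsto
      (fun n : ℕ => law (fun x => w x ω) {x | |(x : ℝ) / n - vP| < η} n 0) atTop (𝓝 1))
    (v δ : ℝ) (hv : 0 < v) (hδ : 0 < δ) (hvδ : v + δ < vP)
    (f : ℕ → ℝ) (hf : Monotone f) (hf1 : ∀ n, 1 ≤ f n) :
    ∀ᵐ ω ∂P, ∀ A : ℕ → Set ℤ,
      (∀ (n : ℕ) (x : ℤ), (x : ℝ) / n ∈ Set.Ioo (v - δ) (v + δ) → x ∈ A n) →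
      (∀ n : ℕ, ∀ x ∈ A n, (x : ℝ) / n < v + δ) → ∀ c : ℝ, 0 < c →
      ((Summable fun n : ℕ => 1 / (n * f n ^ s)) → ∀ᶠ n : ℕ in atTop,
        law (fun x => w x ω) (A n) n 0 ≤ Real.exp (-(c * ((n : ℝ) ^ (1 - 1 / s) / f n)))) ∧
      ((¬ Summable fun n : ℕ => 1 / (n * f n ^ s)) → ∃ᶠ n : ℕ in atTop,
        Real.exp (-(c * ((n : ℝ) ^ (1 - 1 / s) / f n))) ≤ law (fun x => w x ω) (A n) n 0) := by
  obtain ⟨e, F, κ, θ, am, h1, he, h, ha⟩ := setup P w hw hind hid hε hell hmin hs hms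
  have h2 := speed_le (u := (v + δ + vP) / 2) he h ha (by linarith)
    (A := fun n => {x | |(x : ℝ) / n - vP| < (vP - (v + δ)) / 2}) (fun n hn x hx => by
      have h3 := (abs_lt.1 (Set.mem_ofPred_eq ▸ hx)).1
      exact (le_div_iff₀ (by exact_mod_cast hn)).1 (by linarith)) (by
      filter_upwards [h1, hvP ((vP - (v + δ)) / 2) (by linarith)] with ω h3 h4
      rwa [h3])
  have hτ : 0 < am / (1 - θ) := div_pos (zero_lt_one.trans_le (h.one_le_am ha)) (sub_pos.2 h.hθ)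
  have hu : (v + δ) * (am / (1 - θ)) < 1 :=
    (mul_lt_mul_of_pos_right (by linarith) hτ).trans_le h2
  have hs0 : 0 < s := zero_lt_one.trans hs
  have hf0 : ∀ n, 0 < f n := fun n => zero_lt_one.trans_le (hf1 n)
  obtain ⟨g, hgd⟩ : ∃ g : ℕ → ℝ, ∀ n, g n = (n : ℝ) ^ s⁻¹ * f n := ⟨_, fun _ => rfl⟩
  have hg : ∀ n : ℕ, (n : ℝ) ^ s⁻¹ ≤ g n := fun n =>
    hgd n ▸ le_mul_of_one_le_right (by positivity) (hf1 n)
  have hmono : Monotone g := fun m n hmn => by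
    rw [hgd, hgd]
    exact mul_le_mul (Real.rpow_le_rpow m.cast_nonneg (by exact_mod_cast hmn) (by positivity))
      (hf hmn) (hf0 m).le (by positivity)
  have hiff : (Summable fun k : ℕ => ((2 ^ k : ℕ) : ℝ) / g (2 ^ k) ^ s) ↔
      Summable fun n : ℕ => 1 / (n * f n ^ s) := by
    rw [← summable_condensed_iff_of_nonneg (f := fun n : ℕ => 1 / (n * f n ^ s))
      (fun n => by have := hf0 n; positivity) fun m n hm hmn => by
        have := hf0 m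
        exact one_div_le_one_div_of_le (by positivity) (mul_le_mul (by exact_mod_cast hmn)
          (Real.rpow_le_rpow this.le (hf hmn) hs0.le) (by positivity) (by positivity))]
    refine summable_congr fun k => ?_
    rw [hgd, Real.mul_rpow (by positivity) (hf0 _).le, Real.rpow_inv_rpow (by positivity) hs0.ne',
      mul_one_div, Nat.cast_pow, Nat.cast_ofNat]
  have hb : ∀ n : ℕ, 0 < n → n / g n = (n : ℝ) ^ (1 - 1 / s) / f n := fun n hn => by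
    rw [hgd, Real.rpow_sub (by exact_mod_cast hn), Real.rpow_one, one_div, div_div]
  have hb0 : ∀ n : ℕ, 0 ≤ (n : ℝ) ^ (1 - 1 / s) / f n := fun n => by
    have := hf0 n
    positivity
  by_cases hS : Summable fun n : ℕ => 1 / (n * f n ^ s)
  · filter_upwards [h1, ae_all_iff.2 fun K : ℕ => int_upper he h ha hv hδ hu hg hmono (hiff.2 hS)
      (Nat.cast_add_one_pos K)] with ω h3 h4 A _ hA c _
    refine ⟨fun _ => ?_, fun h5 => absurd hS h5⟩
    filter_upwards [h4 ⌈c⌉₊, eventually_gt_atTop 0] with n h5 hn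
    rw [← h3]
    refine (h5 _ (hA n)).trans (Real.exp_le_exp.2 (neg_le_neg ?_))
    rw [hb n hn]
    exact mul_le_mul_of_nonneg_right (by linarith [Nat.le_ceil c]) (hb0 n)
  · filter_upwards [h1, ae_all_iff.2 fun K : ℕ => int_lower he h ha hv hδ hu hg
      (fun h3 => hS (hiff.1 h3)) (Nat.one_div_pos_of_nat (n := K))] with ω h3 h4 A hA _ c hc
    refine ⟨fun h5 => absurd h5 hS, fun _ => ?_⟩
    obtain ⟨K, hK⟩ := exists_nat_one_div_lt hc
    refine ((h4 K).and_eventually (eventually_gt_atTop 0)).mono fun n ⟨h5, hn⟩ => ?_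
    rw [← h3]
    refine le_trans (Real.exp_le_exp.2 (neg_le_neg ?_)) (h5 _ (hA n))
    rw [hb n hn]
    exact mul_le_mul_of_nonneg_right hK.le (hb0 n)

end Pool.Agent.Results.MP_4175a8_pr.IntegralTest
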