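import Pool.Agent.P.MP_4175a8_pr.Clip

open MeasureTheory ProbabilityTheory Filter Topology

namespace Pool.Agent.Results.MP_4175a8_pr.LogLogRate

open Pool.Agent.RW

theorem result {Ω : Type*} [MeasurableSpace Ω] (P : Measure Ω) [IsProbabilityMeasure P]
    (w : ℤ → Ω → ℝ × ℝ) (hw : ∀ x, Measurable (w x)) (hind : iIndepFun w P)
    (hid : ∀ x, IdentDistrib (w x) (w 0) P P) (ε : ℝ) (hε : 0 < ε)
    (hell : ∀ᵐ ω ∂P, ε < (w 0 ω).1 ∧ ε < (w 0 ω).2 ∧ (w 0 ω).1 + (w 0 ω).2 ≤ 1)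
    (hmin : P {ω | (w 0 ω).2 / (w 0 ω).1 < 1} ≠ 0)
    (s : ℝ) (hs : 1 < s) (hms : ∫ ω, ((w 0 ω).2 / (w 0 ω).1) ^ s ∂P = 1)
    (vP : ℝ) (hvP : ∀ η : ℝ, 0 < η → ∀ᵐ ω ∂P, Tendsto
      (fun n : ℕ => law (fun x => w x ω) {x | |(x : ℝ) / n - vP| < η} n 0) atTop (𝓝 1))
    (v δ : ℝ) (hv : 0 < v) (hδ : 0 < δ) (hvδ : v + δ < vP) :
    ∃ c C : ℝ, 0 < c ∧ ∀ᵐ ω ∂P, ∀ A : ℕ → Set ℤ,
      (∀ (n : ℕ) (x : ℤ), (x : ℝ) / n ∈ Set.Ioo (v - δ) (v + δ) → x ∈ A n) →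
      (∀ n : ℕ, ∀ x ∈ A n, (x : ℝ) / n < v + δ) →
      (∀ᶠ n : ℕ in atTop,
        Real.exp (-(C * ((n : ℝ) ^ (1 - 1 / s) * Real.log (Real.log n) ^ (1 / s)))) ≤
          law (fun x => w x ω) (A n) n 0) ∧
      ∃ᶠ n : ℕ in atTop, law (fun x => w x ω) (A n) n 0 ≤
        Real.exp (-(c * ((n : ℝ) ^ (1 - 1 / s) * Real.log (Real.log n) ^ (1 / s)))) := by
  obtain ⟨e, F, κ, θ, am, h1, he, h, ha⟩ := setup P w hw hind hid hε hell hmin hs hms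
  have h2 := speed_le (u := (v + δ + vP) / 2) he h ha (by linarith)
    (A := fun n => {x | |(x : ℝ) / n - vP| < (vP - (v + δ)) / 2}) (fun n hn x hx => by
      have h3 := (abs_lt.1 (Set.mem_ofPred_eq ▸ hx)).1
      exact (le_div_iff₀ (by exact_mod_cast hn)).1 (by linarith)) (by
      filter_upwards [h1, hvP ((vP - (v + δ)) / 2) (by linarith)] with ω h3 h4
      rwa [h3])
  have hτ : 0 < am / (1 - θ) := div_pos (zero_lt_one.trans_le (h.one_le_am ha)) (sub_pos.2 h.hθ)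
  have hu : (v + δ) * (am / (1 - θ)) < 1 :=
    (mul_lt_mul_of_pos_right (by linarith) hτ).trans_le h2
  obtain ⟨C, hC⟩ := main_lower he h ha hv hδ hu
  obtain ⟨c, hc0, hc⟩ := main_upper he h ha hv hδ hu
  refine ⟨c, C, hc0, ?_⟩
  filter_upwards [h1, hC, hc] with ω h3 h4 h5 A hA1 hA2
  rw [← h3]
  refine ⟨?_, (h5.and_eventually (ev_ll.and (eventually_gt_atTop 0))).mono ?_⟩
  · filter_upwards [h4, ev_ll, eventually_gt_atTop 0] with n h6 h7 h8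
    have := h6 (A n) (hA1 n)
    rwa [div_sc h8 h7] at this
  · rintro n ⟨h6, h7, h8⟩
    have := h6 (A n) (hA2 n)
    rwa [div_sc h8 h7] at this

end Pool.Agent.Results.MP_4175a8_pr.LogLogRate
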